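import Mathlib
set_option autoImplicit false
namespace Pool.Agent.Results.MP_89f45c_al.Yes

variable {F : Type} [Field F] (σ : F ≃+* F) {n : ℕ}

/-- Elements of the skew polynomial ring: finitely supported coefficient families. -/
abbrev Pol (F : Type) [Field F] (n : ℕ) := (Fin n → ℕ) →₀ F

/-- The product determined by `x_i x_j = x_j x_i` and `x_i a = σ(a) x_i`:
`(a x^k) (b x^l) = a σ^{|k|}(b) x^{k+l}`. -/
noncomputable def mul (f g : Pol F n) : Pol F n :=
  f.sum fun k a => g.sum fun l b => Finsupp.single (k + l) (a * (σ ^ ∑ i, k i) b)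

/-- Left ideals of the skew polynomial ring. -/
def IsLeftIdeal (J : AddSubgroup (Pol F n)) : Prop := ∀ r, ∀ f ∈ J, mul σ r f ∈ J

/-- The σ-affine space. -/
def Aff (n : ℕ) : Set (Fin n → F) := {a | ∀ i j, i ≠ j → σ (a j) * a i = σ (a i) * a j}

/-- `N_k(a) = σ^{k-1}(a) ... σ(a) a`. -/
def N (k : ℕ) (a : F) : F := ∏ j ∈ Finset.range k, (σ ^ j) a

/-- Value of the monomial `x^k` at `a`. -/
def mon (a : Fin n → F) (k : Fin n → ℕ) : F :=
  ∏ i, (σ ^ ∑ j ∈ Finset.univ.filter (· < i), k j) (N σ (k i) (a i))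

/-- Value of `f` at `a`. -/
def ev (a : Fin n → F) (f : Pol F n) : F := f.sum fun k c => c * mon σ a k

/-- The zero set of `J`. -/
def Z (J : Set (Pol F n)) : Set (Fin n → F) := {a | a ∈ Aff σ n ∧ ∀ f ∈ J, ev σ a f = 0}

/-- The polynomials vanishing on `S`. -/
def I (S : Set (Fin n → F)) : Set (Pol F n) := {f | ∀ a ∈ S, ev σ a f = 0}

lemma pw (k : ℕ) (a : F) : (σ ^ (k + 1)) a = σ ((σ ^ k) a) := by rw [pow_succ']; rfl
lemma pw' (k : ℕ) (a : F) : (σ ^ (k + 1)) a = (σ ^ k) (σ a) := by rw [pow_succ]; rfl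

lemma N_succ (k : ℕ) (a : F) : N σ (k + 1) a = σ (N σ k a) * a := by
  simp only [N, Finset.prod_range_succ', pw, map_prod, pow_zero]
  rfl

lemma N_comm (a b : F) (h : σ a * b = σ b * a) (k : ℕ) :
    σ (N σ k a) * b = N σ k a * (σ ^ k) b := by
  induction k with
  | zero => simp [N]
  | succ k ih =>
    have e : N σ (k + 1) a = N σ k a * (σ ^ k) a := Finset.prod_range_succ _ _
    have h' := congrArg (σ ^ k) h
    simp only [map_mul, ← pw'] at h'
    rw [e, map_mul, ← pw]
    linear_combination (σ ^ (k + 1)) a * ih + N σ k a * h'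

lemma mon_succ (a : Fin (n + 1) → F) (k : Fin (n + 1) → ℕ) :
    mon σ a k = N σ (k 0) (a 0) * (σ ^ k 0) (mon σ (Fin.tail a) (Fin.tail k)) := by
  simp only [mon, Fin.prod_univ_succ, map_prod, Finset.sum_filter, Fin.sum_univ_succ]
  simp [pow_add, Fin.tail]

lemma mon_add : ∀ {n : ℕ} (a : Fin n → F), a ∈ Aff σ n → ∀ (k : Fin n → ℕ) (i : Fin n),
    mon σ a (Pi.single i 1 + k) = σ (mon σ a k) * a i
  | 0, _, _, _, i => i.elim0
  | n + 1, a, ha, k, i => by
    rw [mon_succ, mon_succ]
    refine Fin.cases ?_ (fun i => ?_) i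
    · have : Fin.tail (Pi.single 0 1 + k : Fin (n + 1) → ℕ) = Fin.tail k := by
        ext j; simp [Fin.tail]
      rw [this, Pi.add_apply, Pi.single_eq_same, add_comm, N_succ, pw, map_mul]
      ring
    · have : Fin.tail (Pi.single i.succ 1 + k : Fin (n + 1) → ℕ) = Pi.single i 1 + Fin.tail k := by
        ext j; simp [Fin.tail, Pi.single_apply]
      rw [this, mon_add (Fin.tail a) (fun i j h => ha _ _ (by simpa)), Pi.add_apply,
        Pi.single_eq_of_ne (Fin.succ_ne_zero i).symm, zero_add, map_mul, map_mul, ← pw', ← pw]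
      have := N_comm σ (a 0) (a i.succ) (ha _ _ (Fin.succ_ne_zero i)) (k 0)
      rw [show Fin.tail a i = a i.succ from rfl]
      linear_combination (-(σ ^ (k 0 + 1)) (mon σ (Fin.tail a) (Fin.tail k))) * this

noncomputable def evL (a : Fin n → F) : Pol F n →ₗ[F] F := Finsupp.linearCombination F (mon σ a)

lemma evL_eq (a : Fin n → F) (f : Pol F n) : evL σ a f = ev σ a f := by
  simp [evL, ev, Finsupp.linearCombination_apply]

noncomputable def T (i : Fin n) (f : Pol F n) : Pol F n :=
  mul σ (Finsupp.single (Pi.single i 1) 1) f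

lemma T_eq (i : Fin n) (f : Pol F n) :
    T σ i f = f.sum fun l b => Finsupp.single (Pi.single i 1 + l) (σ b) := by
  rw [T, mul, Finsupp.sum_single_index (by simp)]
  simp

lemma ev_T (a : Fin n → F) (ha : a ∈ Aff σ n) (i : Fin n) (f : Pol F n) :
    evL σ a (T σ i f) = σ (evL σ a f) * a i := by
  rw [T_eq, map_finsuppSum, evL_eq, ev, map_finsuppSum, Finsupp.sum_mul]
  refine Finsupp.sum_congr fun k _ => ?_
  simp [evL, mon_add σ a ha, mul_assoc]

lemma ext_T (ψ χ : Pol F n →ₗ[F] F) (a : Fin n → F)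
    (h1 : ∀ i f, ψ (T σ i f) = σ (ψ f) * a i) (h2 : ∀ i f, χ (T σ i f) = σ (χ f) * a i)
    (h0 : ψ (Finsupp.single 0 1) = χ (Finsupp.single 0 1)) : ψ = χ := by
  have key : ∀ (m : ℕ) (k : Fin n → ℕ), ∑ i, k i = m →
      ψ (Finsupp.single k 1) = χ (Finsupp.single k 1) := by
    intro m
    induction m with
    | zero =>
      intro k hk
      have : k = 0 := funext fun i => by simpa using (Finset.sum_eq_zero_iff.1 hk) i (by simp)
      rw [this, h0]
    | succ m ih =>
      intro k hk
      obtain ⟨i, hi⟩ : ∃ i, k i ≠ 0 := by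
        by_contra h
        push Not at h
        simp [h] at hk
      obtain ⟨u, rfl⟩ : ∃ u : Fin n → ℕ, k = Pi.single i 1 + u := ⟨k - Pi.single i 1, by
        ext j
        by_cases h : j = i
        · subst h; simp; omega
        · simp [h]⟩
      have e : (Finsupp.single (Pi.single i 1 + u) 1 : Pol F n) = T σ i (Finsupp.single u 1) := by
        rw [T_eq, Finsupp.sum_single_index (by simp), map_one]
      rw [e, h1, h2, ih u (by simp [Finset.sum_add_distrib] at hk; omega)]
  ext k
  simpa using key _ k rfl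

lemma sep {P : Type} [Fintype P] (p : P → Fin n → F) (U : Submodule F (P → F))
    (hU : ∀ i, ∀ u ∈ U, (fun x => σ (u x) * p x i) ∈ U) (v : P → F) (hv : v ∉ U) :
    ∃ (x : P) (φ : (P → F) →ₗ[F] F), (∀ u ∈ U, φ u = 0) ∧ φ v ≠ 0 ∧
      ∀ i w, φ (fun y => σ (w y) * p y i) = σ (φ w) * p x i := by
  classical
  let W : Finset P → Submodule F (P → F) := fun s =>
    { carrier := {w | ∃ u ∈ U, ∀ y ∉ s, w y = u y}
      add_mem' := by
        rintro _ _ ⟨u, hu, h⟩ ⟨u', hu', h'⟩
        exact ⟨u + u', U.add_mem hu hu', fun y hy => by simp [h y hy, h' y hy]⟩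
      zero_mem' := ⟨0, U.zero_mem, fun _ _ => rfl⟩
      smul_mem' := by
        rintro c _ ⟨u, hu, h⟩
        exact ⟨c • u, U.smul_mem c hu, fun y hy => by simp [h y hy]⟩ }
  obtain ⟨s, hs, hmax⟩ := (Finset.univ.filter fun s => v ∉ W s).exists_max_image Finset.card
    ⟨∅, by
      simp only [Finset.mem_filter, Finset.mem_univ, true_and]
      rintro ⟨u, hu, h⟩
      exact hv ((funext fun y => h y (by simp) : v = u) ▸ hu)⟩
  simp only [Finset.mem_filter, Finset.mem_univ, true_and] at hs hmax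
  obtain ⟨φ, h1, h2⟩ := Submodule.exists_dual_map_eq_bot_of_notMem hs inferInstance
  have z : ∀ w ∈ W s, φ w = 0 := fun w hw => (Submodule.eq_bot_iff _).1 h2 _ ⟨w, hw, rfl⟩
  have k : ∀ y, ∃ c : F, Pi.single y 1 - c • v ∈ W s := fun y => by
    by_cases hy : y ∈ s
    · exact ⟨0, 0, U.zero_mem, fun t ht => by
        have : t ≠ y := by rintro rfl; exact ht hy
        simp [this]⟩
    · obtain ⟨u, hu, h⟩ : v ∈ W (insert y s) := by
        by_contra h
        have := hmax _ h
        rw [Finset.card_insert_of_notMem hy] at this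
        omega
      have c0 : v y - u y ≠ 0 := fun c0 => hs ⟨u, hu, fun t ht => by
        by_cases e : t = y
        · rw [e]; exact sub_eq_zero.1 c0
        · exact h t (by simp [e, ht])⟩
      refine ⟨(v y - u y)⁻¹, -(v y - u y)⁻¹ • u, U.smul_mem _ hu, fun t ht => ?_⟩
      by_cases e : t = y
      · subst e; simp; field_simp; ring
      · simp [e, h t (by simp [e, ht])]
  have ker : ∀ w, φ w = 0 → w ∈ W s := fun w hw => by
    choose c hc using k
    have a : w - (∑ y, w y * c y) • v ∈ W s := by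
      have := Submodule.sum_mem (W s) fun y (_ : y ∈ Finset.univ) => (W s).smul_mem (w y) (hc y)
      convert this using 1
      simp only [smul_sub, Finset.sum_sub_distrib, Finset.sum_smul, mul_smul]
      congr 1
      exact pi_eq_sum_univ' w
    have b := z _ a
    rw [map_sub, hw, map_smul, zero_sub, neg_eq_zero, smul_eq_mul] at b
    simpa [(mul_eq_zero.1 b).resolve_right h1] using a
  obtain ⟨x, hx⟩ : ∃ x, φ (Pi.single x 1) ≠ 0 := by
    by_contra h
    push Not at h
    apply h1
    rw [pi_eq_sum_univ' v, map_sum]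
    exact Finset.sum_eq_zero fun y _ => by rw [map_smul]; exact smul_eq_zero_of_right _ (h y)
  refine ⟨x, (φ (Pi.single x 1))⁻¹ • φ, fun u hu => by simp [z u ⟨u, hu, fun _ _ => rfl⟩],
    by simp [hx, h1], fun i w => ?_⟩
  set c := ((φ (Pi.single x 1))⁻¹ • φ) w with hc
  obtain ⟨u, hu, h⟩ := ker (w - c • Pi.single x 1) (by simp [hc]; field_simp; ring)
  have := z ((fun y => σ (w y) * p y i) - (σ c * p x i) • Pi.single x 1) ⟨_, hU i u hu,
    fun t ht => by
      rw [← h t ht]
      by_cases e : t = x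
      · subst e; simp; ring
      · simp [e]⟩
  rw [map_sub, sub_eq_zero, map_smul] at this
  simp only [LinearMap.smul_apply, this, smul_eq_mul]
  field_simp

theorem result (F : Type) [Field F] [Finite F] (σ : F ≃+* F) (n : ℕ)
    (J : AddSubgroup (Pol F n)) (hJ : IsLeftIdeal σ J) :
    I σ (Z σ (J : Set (Pol F n))) = {f | ∃ g ∈ J, ∃ h ∈ I σ (Aff σ n), f = g + h} := by
  classical
  ext f
  constructor
  swap
  · rintro ⟨g, hg, h, hh, rfl⟩ a ha
    rw [← evL_eq, map_add, evL_eq, evL_eq, ha.2 g hg, hh a ha.1, add_zero]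
  intro hf
  have := Fintype.ofFinite (Aff σ n)
  let E : Pol F n →ₗ[F] (Aff σ n → F) := LinearMap.pi fun a => evL σ a.1
  have ET : ∀ i g, E (T σ i g) = fun a => σ (E g a) * a.1 i := fun i g =>
    funext fun a => ev_T σ a.1 a.2 i g
  let J' : Submodule F (Pol F n) :=
    { carrier := J
      add_mem' := J.add_mem
      zero_mem' := J.zero_mem
      smul_mem' := fun c g hg => by
        have := hJ (Finsupp.single 0 c) g hg
        rw [mul, Finsupp.sum_single_index (by simp)] at this
        have e : c • g = g.sum fun l b => Finsupp.single (0 + l)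
            (c * (σ ^ ∑ i, (0 : Fin n → ℕ) i) b) := by
          conv_lhs => rw [← Finsupp.sum_single g, Finsupp.smul_sum]
          refine Finsupp.sum_congr fun l _ => ?_
          rw [Finsupp.smul_single, zero_add, smul_eq_mul]
          simp
        exact e ▸ this }
  by_cases hv : E f ∈ J'.map E
  · obtain ⟨g, hg, e⟩ := hv
    refine ⟨g, hg, f - g, fun a ha => ?_, by simp⟩
    rw [← evL_eq, map_sub, sub_eq_zero]
    exact (congrFun e ⟨a, ha⟩).symm
  exfalso
  obtain ⟨a, φ, h1, h2, h3⟩ := sep σ (fun a : Aff σ n => a.1) (J'.map E) (by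
    rintro i _ ⟨g, hg, rfl⟩
    exact ⟨T σ i g, hJ _ g hg, ET i g⟩) _ hv
  have hψ : ∀ i g, (φ ∘ₗ E) (T σ i g) = σ ((φ ∘ₗ E) g) * a.1 i := fun i g => by
    simp only [LinearMap.comp_apply, ET, h3]
  set c := (φ ∘ₗ E) (Finsupp.single 0 1) with hc
  have c0 : c ≠ 0 := fun c0 => by
    have := ext_T σ (φ ∘ₗ E) 0 a.1 hψ (by simp) (by simp [← hc, c0])
    exact h2 (LinearMap.congr_fun this f)
  have s0 : σ c ≠ 0 := by simpa
  have hb : (fun i => σ c * a.1 i / c) ∈ Aff σ n := fun i j h => by
    have := a.2 i j h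
    simp only [map_div₀, map_mul]
    have s1 : σ (σ c) ≠ 0 := by simpa
    field_simp
    linear_combination this
  have e := ext_T σ (φ ∘ₗ E) (c • evL σ fun i => σ c * a.1 i / c) a.1 hψ (fun i g => by
    simp only [LinearMap.smul_apply, ev_T σ _ hb, smul_eq_mul, map_mul]
    field_simp) (by simp [← hc, evL, mon, N])
  have e' : ∀ g, φ (E g) = c * ev σ (fun i => σ c * a.1 i / c) g := fun g => by
    rw [← evL_eq]; exact LinearMap.congr_fun e g
  apply h2
  rw [e', hf _ ⟨hb, fun g hg => ?_⟩, mul_zero]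
  have := h1 _ ⟨g, hg, rfl⟩
  rw [e'] at this
  exact (mul_eq_zero.1 this).resolve_left c0

end Pool.Agent.Results.MP_89f45c_al.Yes
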